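import Pool.Agent.H649T.Tube

/-!
The multi-scale set built from the digit graphs.
-/

set_option autoImplicit false

open Finset

namespace Pool.Agent.H649T

/-- number of digits at step `k` -/
def nn (k : ℕ) : ℕ := 2 ^ (k + 1)

theorem two_le_nn (k : ℕ) : 2 ≤ nn k := by
  unfold nn
  calc 2 = 2 ^ 1 := rfl
    _ ≤ 2 ^ (k + 1) := Nat.pow_le_pow_right (by norm_num) (by omega)

theorem nn_pos (k : ℕ) : (0 : ℝ) < nn k := by
  have := two_le_nn k
  exact_mod_cast (by omega : 0 < nn k)

/-- side length at level `k` -/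
noncomputable def rr : ℕ → ℝ
  | 0 => 1
  | k + 1 => rr k / nn k

theorem rr_zero : rr 0 = 1 := rfl

theorem rr_succ (k : ℕ) : rr (k + 1) = rr k / nn k := rfl

theorem rr_pos (k : ℕ) : 0 < rr k := by
  induction k with
  | zero => rw [rr_zero]; norm_num
  | succ k ih => rw [rr_succ]; exact div_pos ih (nn_pos k)

theorem rr_succ_mul (k : ℕ) : rr (k + 1) * nn k = rr k := by
  rw [rr_succ, div_mul_cancel₀ _ (nn_pos k).ne']

theorem rr_le_half (k : ℕ) : rr (k + 1) ≤ rr k / 2 := by
  rw [rr_succ]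
  have h2 : (2 : ℝ) ≤ nn k := by exact_mod_cast two_le_nn k
  exact div_le_div_of_nonneg_left (rr_pos k).le (by norm_num) h2

theorem rr_le_pow (k : ℕ) : rr k ≤ (1 / 2) ^ k := by
  induction k with
  | zero => rw [rr_zero, pow_zero]
  | succ k ih =>
    have := rr_le_half k
    rw [pow_succ]
    linarith

variable (m : ℕ)

/-- the digit graph at step `k` -/
noncomputable def hh (k : ℕ) : (Fin m → Fin (nn k)) → Fin (nn k) :=
  (exists_digits m (nn k) (two_le_nn k)).choose

open Classical in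
theorem hh_spec (k : ℕ) (p v : Fin (m + 1) → ℝ) (hv : v ≠ 0) (ρ : ℝ) (hρ : 1 ≤ ρ) :
    ((univ.filter fun i => Near p v ρ (zz i (hh m k i))).card : ℝ) ≤ Lb m (nn k) * ρ ^ m :=
  (exists_digits m (nn k) (two_le_nn k)).choose_spec p v hv ρ hρ

variable {m}

/-- the child corner -/
noncomputable def ch (k : ℕ) (q : Fin (m + 1) → ℝ) (i : Fin m → Fin (nn k)) : Fin (m + 1) → ℝ :=
  fun j => q j + rr (k + 1) * zz i (hh m k i) j

variable (m)

open Classical in
/-- the corners of the cubes of level `k` -/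
noncomputable def Cor : ℕ → Finset (Fin (m + 1) → ℝ)
  | 0 => {0}
  | k + 1 => (Cor k).biUnion fun q => univ.image (ch k q)

theorem Cor_zero : Cor m 0 = {0} := rfl

open Classical in
theorem Cor_succ (k : ℕ) : Cor m (k + 1) = (Cor m k).biUnion fun q => univ.image (ch k q) := rfl

theorem mem_Cor_succ {k : ℕ} {q' : Fin (m + 1) → ℝ} :
    q' ∈ Cor m (k + 1) ↔ ∃ q ∈ Cor m k, ∃ i, q' = ch k q i := by
  classical
  rw [Cor_succ, Finset.mem_biUnion]
  constructor
  · rintro ⟨q, hq, h⟩
    obtain ⟨i, _, hi⟩ := Finset.mem_image.mp h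
    exact ⟨q, hq, i, hi.symm⟩
  · rintro ⟨q, hq, i, rfl⟩
    exact ⟨q, hq, Finset.mem_image.mpr ⟨i, Finset.mem_univ _, rfl⟩⟩

variable {m}

open Classical in
/-- the corners near a line -/
noncomputable def PP (p v : Fin (m + 1) → ℝ) (w : ℝ) (k : ℕ) : Finset (Fin (m + 1) → ℝ) :=
  (Cor m k).filter fun q => Near p v (w + rr k) q

theorem mem_PP {p v : Fin (m + 1) → ℝ} {w : ℝ} {k : ℕ} {q : Fin (m + 1) → ℝ} :
    q ∈ PP p v w k ↔ q ∈ Cor m k ∧ Near p v (w + rr k) q := by
  classical
  unfold PP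
  exact Finset.mem_filter

theorem ch_bounds (k : ℕ) (q : Fin (m + 1) → ℝ) (i : Fin m → Fin (nn k)) (j : Fin (m + 1)) :
    q j ≤ ch k q i j ∧ ch k q i j + rr (k + 1) ≤ q j + rr k := by
  have h1 := zz_nonneg i (hh m k i) j
  have h2 := zz_le i (hh m k i) j
  have h3 := rr_pos (k + 1)
  have h4 := rr_succ_mul k
  unfold ch
  constructor
  · have := mul_nonneg h3.le h1
    linarith
  · have := mul_le_mul_of_nonneg_left h2 h3.le
    nlinarith

theorem near_parent {p v : Fin (m + 1) → ℝ} {w : ℝ} {k : ℕ} {q : Fin (m + 1) → ℝ}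
    {i : Fin m → Fin (nn k)} (h : Near p v (w + rr (k + 1)) (ch k q i)) :
    Near p v (w + rr k) q := by
  obtain ⟨t, ht⟩ := h
  refine ⟨t, fun j => ?_⟩
  have h1 := ht j
  have h2 := ch_bounds k q i j
  rw [abs_le] at h1 ⊢
  constructor <;> linarith [h1.1, h1.2, h2.1, h2.2]

theorem near_scale {p v q x : Fin (m + 1) → ℝ} {ρ r : ℝ} (hr : 0 < r)
    (h : Near p v ρ (fun j => q j + r * x j)) :
    Near (fun j => (p j - q j) / r) v (ρ / r) x := by
  obtain ⟨t, ht⟩ := h
  refine ⟨t / r, fun j => ?_⟩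
  have e : x j - ((p j - q j) / r + t / r * v j) = (q j + r * x j - (p j + t * v j)) / r := by
    field_simp
    ring
  rw [e, abs_div, abs_of_pos hr]
  exact div_le_div_of_nonneg_right (ht j) hr.le

open Classical in
theorem card_near_children {p v : Fin (m + 1) → ℝ} (hv : v ≠ 0) {w : ℝ} (hw : 0 ≤ w) (k : ℕ)
    (q : Fin (m + 1) → ℝ) :
    ((univ.filter fun i => Near p v (w + rr (k + 1)) (ch k q i)).card : ℝ) ≤
      Lb m (nn k) * (1 + w / rr (k + 1)) ^ m := by
  have hr := rr_pos (k + 1)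
  have h1 : (univ.filter fun i => Near p v (w + rr (k + 1)) (ch k q i)) ⊆
      (univ.filter fun i => Near (fun j => (p j - q j) / rr (k + 1)) v
        (1 + w / rr (k + 1)) (zz i (hh m k i))) := by
    intro i hi
    refine Finset.mem_filter.mpr ⟨Finset.mem_univ _, ?_⟩
    have h2 := near_scale hr (Finset.mem_filter.mp hi).2
    have e : (w + rr (k + 1)) / rr (k + 1) = 1 + w / rr (k + 1) := by
      field_simp
      ring
    rw [e] at h2
    exact h2
  have h2 : ((univ.filter fun i => Near p v (w + rr (k + 1)) (ch k q i)).card : ℝ) ≤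
      ((univ.filter fun i => Near (fun j => (p j - q j) / rr (k + 1)) v
        (1 + w / rr (k + 1)) (zz i (hh m k i))).card : ℝ) := by
    exact_mod_cast Finset.card_le_card h1
  refine h2.trans (hh_spec m k _ v hv _ ?_)
  have := div_nonneg hw hr.le
  linarith

theorem PP_sub (p v : Fin (m + 1) → ℝ) (w : ℝ) (k : ℕ) (q' : Fin (m + 1) → ℝ)
    (h : q' ∈ PP p v w (k + 1)) : ∃ q ∈ PP p v w k, ∃ i, q' = ch k q i ∧
      Near p v (w + rr (k + 1)) (ch k q i) := by
  rw [mem_PP, mem_Cor_succ] at h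
  obtain ⟨⟨q, hq, i, rfl⟩, h2⟩ := h
  exact ⟨q, mem_PP.mpr ⟨hq, near_parent h2⟩, i, rfl, h2⟩

theorem card_PP_zero (p v : Fin (m + 1) → ℝ) (w : ℝ) : ((PP p v w 0).card : ℝ) ≤ 1 := by
  classical
  have : (PP p v w 0).card ≤ (Cor m 0).card := Finset.card_le_card (Finset.filter_subset _ _)
  rw [Cor_zero, Finset.card_singleton] at this
  exact_mod_cast this

theorem card_PP_succ {p v : Fin (m + 1) → ℝ} (hv : v ≠ 0) {w : ℝ} (hw : 0 ≤ w) (k : ℕ) :
    ((PP p v w (k + 1)).card : ℝ) ≤
      (PP p v w k).card * (Lb m (nn k) * (1 + w / rr (k + 1)) ^ m) := by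
  classical
  have h1 : PP p v w (k + 1) ⊆ (PP p v w k).biUnion fun q =>
      (univ.filter fun i => Near p v (w + rr (k + 1)) (ch k q i)).image (ch k q) := by
    intro q' hq'
    obtain ⟨q, hq, i, rfl, h2⟩ := PP_sub p v w k q' hq'
    rw [Finset.mem_biUnion]
    exact ⟨q, hq, Finset.mem_image.mpr ⟨i, Finset.mem_filter.mpr ⟨Finset.mem_univ _, h2⟩, rfl⟩⟩
  calc ((PP p v w (k + 1)).card : ℝ)
      ≤ (((PP p v w k).biUnion fun q =>
        (univ.filter fun i => Near p v (w + rr (k + 1)) (ch k q i)).image (ch k q)).card : ℝ) := by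
        exact_mod_cast Finset.card_le_card h1
    _ ≤ ((∑ q ∈ PP p v w k,
        ((univ.filter fun i => Near p v (w + rr (k + 1)) (ch k q i)).image (ch k q)).card : ℕ) :
          ℝ) := by
        exact_mod_cast Finset.card_biUnion_le
    _ ≤ ∑ q ∈ PP p v w k, Lb m (nn k) * (1 + w / rr (k + 1)) ^ m := by
        push_cast
        refine Finset.sum_le_sum fun q _ => ?_
        refine le_trans ?_ (card_near_children (p := p) hv hw k q)
        exact_mod_cast Finset.card_image_le
    _ = _ := by rw [Finset.sum_const, nsmul_eq_mul]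

theorem card_PP_succ' (p v : Fin (m + 1) → ℝ) (w : ℝ) (k : ℕ) :
    ((PP p v w (k + 1)).card : ℝ) ≤ (PP p v w k).card * (nn k : ℝ) ^ m := by
  classical
  have h1 : PP p v w (k + 1) ⊆ (PP p v w k).biUnion fun q => univ.image (ch k q) := by
    intro q' hq'
    obtain ⟨q, hq, i, rfl, h2⟩ := PP_sub p v w k q' hq'
    rw [Finset.mem_biUnion]
    exact ⟨q, hq, Finset.mem_image.mpr ⟨i, Finset.mem_univ _, rfl⟩⟩
  calc ((PP p v w (k + 1)).card : ℝ)
      ≤ (((PP p v w k).biUnion fun q => univ.image (ch k q)).card : ℝ) := by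
        exact_mod_cast Finset.card_le_card h1
    _ ≤ ((∑ q ∈ PP p v w k, (univ.image (ch k q)).card : ℕ) : ℝ) := by
        exact_mod_cast Finset.card_biUnion_le
    _ ≤ ∑ q ∈ PP p v w k, (nn k : ℝ) ^ m := by
        push_cast
        refine Finset.sum_le_sum fun q _ => ?_
        have h3 : (univ.image (ch k q)).card ≤ (univ : Finset (Fin m → Fin (nn k))).card :=
          Finset.card_image_le
        rw [Finset.card_univ, Fintype.card_fun, Fintype.card_fin, Fintype.card_fin] at h3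
        exact_mod_cast h3
    _ = _ := by rw [Finset.sum_const, nsmul_eq_mul]

/-- once a level is reached, the total measure of the cubes does not increase -/
theorem card_PP_mono (p v : Fin (m + 1) → ℝ) (w : ℝ) (k l : ℕ) :
    ((PP p v w (k + l)).card : ℝ) * rr (k + l) ^ m ≤ (PP p v w k).card * rr k ^ m := by
  induction l with
  | zero => exact le_rfl
  | succ l ih =>
    refine le_trans ?_ ih
    have h1 := card_PP_succ' p v w (k + l)
    have h2 : (0 : ℝ) ≤ rr (k + (l + 1)) ^ m := pow_nonneg (rr_pos _).le m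
    calc ((PP p v w (k + (l + 1))).card : ℝ) * rr (k + (l + 1)) ^ m
        ≤ ((PP p v w (k + l)).card * (nn (k + l) : ℝ) ^ m) * rr (k + (l + 1)) ^ m :=
          mul_le_mul_of_nonneg_right h1 h2
      _ = (PP p v w (k + l)).card * (rr (k + l + 1) * nn (k + l)) ^ m := by
          rw [mul_pow]; ring_nf
      _ = _ := by rw [rr_succ_mul]

/-- the product of the step constants -/
noncomputable def Lam (m : ℕ) : ℕ → ℝ
  | 0 => 1
  | k + 1 => Lam m k * (2 ^ m * Lb m (nn k))

theorem Lam_succ (m k : ℕ) : Lam m (k + 1) = Lam m k * (2 ^ m * Lb m (nn k)) := rfl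

theorem Lam_pos (m k : ℕ) : 0 < Lam m k := by
  induction k with
  | zero => show (0 : ℝ) < 1; norm_num
  | succ k ih =>
    rw [Lam_succ]
    have := Lb_ge m (nn k)
    positivity

theorem card_PP_le {p v : Fin (m + 1) → ℝ} (hv : v ≠ 0) {w : ℝ} (hw : 0 ≤ w) (k : ℕ)
    (hk : w ≤ rr k) : ((PP p v w k).card : ℝ) ≤ Lam m k := by
  induction k with
  | zero => exact card_PP_zero p v w
  | succ k ih =>
    have hk' : w ≤ rr k := hk.trans ((rr_le_half k).trans (by linarith [rr_pos k]))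
    have h1 := card_PP_succ (p := p) hv hw k
    have hr := rr_pos (k + 1)
    have h2 : (1 + w / rr (k + 1)) ^ m ≤ 2 ^ m := by
      refine pow_le_pow_left₀ (by positivity) ?_ m
      have : w / rr (k + 1) ≤ 1 := (div_le_one hr).mpr hk
      linarith
    have hL := Lb_ge m (nn k)
    rw [Lam_succ]
    calc ((PP p v w (k + 1)).card : ℝ) ≤ (PP p v w k).card *
        (Lb m (nn k) * (1 + w / rr (k + 1)) ^ m) := h1
      _ ≤ Lam m k * (Lb m (nn k) * 2 ^ m) := by
          refine mul_le_mul (ih hk') ?_ (by positivity) (Lam_pos m k).le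
          exact mul_le_mul_of_nonneg_left h2 (by linarith)
      _ = _ := by ring

theorem card_PP_last {p v : Fin (m + 1) → ℝ} (hv : v ≠ 0) {w : ℝ} (k : ℕ)
    (hk : w ≤ rr k) (hk1 : rr (k + 1) ≤ w) :
    ((PP p v w (k + 1)).card : ℝ) * rr (k + 1) ^ m ≤ Lam m (k + 1) * w ^ m := by
  have hr := rr_pos (k + 1)
  have hw : 0 < w := hr.trans_le hk1
  have h1 := card_PP_succ (p := p) hv hw.le k
  have h2 : (1 + w / rr (k + 1)) ^ m ≤ (2 * (w / rr (k + 1))) ^ m := by
    refine pow_le_pow_left₀ (by positivity) ?_ m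
    have : 1 ≤ w / rr (k + 1) := (one_le_div hr).mpr hk1
    linarith
  have hL := Lb_ge m (nn k)
  have h3 := card_PP_le (p := p) hv hw.le k hk
  rw [Lam_succ]
  calc ((PP p v w (k + 1)).card : ℝ) * rr (k + 1) ^ m
      ≤ (Lam m k * (Lb m (nn k) * (2 * (w / rr (k + 1))) ^ m)) * rr (k + 1) ^ m := by
        refine mul_le_mul_of_nonneg_right (h1.trans ?_) (by positivity)
        refine mul_le_mul h3 ?_ (by positivity) (Lam_pos m k).le
        exact mul_le_mul_of_nonneg_left h2 (by linarith)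
    _ = Lam m k * (2 ^ m * Lb m (nn k)) * w ^ m := by
        rw [mul_pow, div_pow]
        have : rr (k + 1) ^ m ≠ 0 := (pow_pos hr m).ne'
        field_simp

end Pool.Agent.H649T
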