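import Pool.Agent.H649T.Haus

/-!
Growth of the constants, and the projection.
-/

set_option autoImplicit false

open Finset MeasureTheory Filter Topology
open scoped ENNReal NNReal

namespace Pool.Agent.H649T

variable {m : ℕ}

theorem card_Fam_le (m k : ℕ) :
    Fintype.card (Fam m (nn k)) ≤ (m + 1) * (2 ^ (k + 5)) ^ (2 * m + 3) := by
  unfold Fam
  rw [Fintype.card_prod, Fintype.card_prod, Fintype.card_prod, Fintype.card_fun, Fintype.card_fin,
    Fintype.card_fin, Fintype.card_fin]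
  have h1 : 12 * nn k + 1 ≤ 2 ^ (k + 5) := by
    unfold nn
    have h2 : 1 ≤ 2 ^ (k + 1) := Nat.one_le_two_pow
    have h3 : 2 ^ (k + 5) = 16 * 2 ^ (k + 1) := by ring
    omega
  have h2 : 4 * nn k + 1 ≤ 2 ^ (k + 5) := by omega
  calc (m + 1) * ((12 * nn k + 1) ^ (m + 1) * ((12 * nn k + 1) ^ (m + 1) * (4 * nn k + 1)))
      ≤ (m + 1) * ((2 ^ (k + 5)) ^ (m + 1) * ((2 ^ (k + 5)) ^ (m + 1) * 2 ^ (k + 5))) := by
        gcongr
    _ = (m + 1) * (2 ^ (k + 5)) ^ (2 * m + 3) := by ring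

/-- the coefficient of the linear bound -/
noncomputable def cc (m : ℕ) : ℝ := 2 * ((m + 1) + 5 * (2 * m + 3) + 9 ^ m)

theorem cc_pos (m : ℕ) : 0 < cc m := by unfold cc; positivity

theorem Lb_le (m k : ℕ) : Lb m (nn k) ≤ cc m * (k + 1) := by
  unfold Lb cc
  have h1 : Real.log (Fintype.card (Fam m (nn k))) ≤ (m + 1) + (2 * m + 3) * (k + 5) := by
    have h0 : (0 : ℝ) < Fintype.card (Fam m (nn k)) := by
      have : 0 < Fintype.card (Fam m (nn k)) := by
        have : Nonempty (Fam m (nn k)) := ⟨(0, fun _ => 0, fun _ => 0, 0)⟩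
        exact Fintype.card_pos
      exact_mod_cast this
    have h2 : (Fintype.card (Fam m (nn k)) : ℝ) ≤ ((m : ℝ) + 1) * (2 ^ (k + 5)) ^ (2 * m + 3) := by
      exact_mod_cast card_Fam_le m k
    have h3 := Real.log_le_log h0 h2
    rw [Real.log_mul (by positivity) (by positivity), Real.log_pow, Real.log_pow] at h3
    have h4 : Real.log ((m : ℝ) + 1) ≤ m + 1 := by
      have := Real.log_le_sub_one_of_pos (show (0 : ℝ) < (m : ℝ) + 1 by positivity)
      linarith
    have h5 : Real.log 2 ≤ 1 := by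
      have := Real.log_two_lt_d9
      linarith
    have h6 : ((k + 5 : ℕ) : ℝ) * Real.log 2 ≤ ((k + 5 : ℕ) : ℝ) * 1 :=
      mul_le_mul_of_nonneg_left h5 (Nat.cast_nonneg _)
    have h7 : ((2 * m + 3 : ℕ) : ℝ) * (((k + 5 : ℕ) : ℝ) * Real.log 2) ≤
        ((2 * m + 3 : ℕ) : ℝ) * (((k + 5 : ℕ) : ℝ) * 1) :=
      mul_le_mul_of_nonneg_left h6 (Nat.cast_nonneg _)
    push_cast at h3 h7
    linarith
  have hm : (0 : ℝ) ≤ m := Nat.cast_nonneg m
  have hk : (0 : ℝ) ≤ k := Nat.cast_nonneg k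
  have h9 : (0 : ℝ) ≤ 9 ^ m := by positivity
  have h10 : ((m : ℝ) + 1) + (2 * m + 3) * (k + 5) + 9 ^ m ≤
      ((m + 1) + 5 * (2 * m + 3) + 9 ^ m) * (k + 1) := by
    have e1 : 0 ≤ (m : ℝ) * k := mul_nonneg hm hk
    have e2 : 0 ≤ (9 : ℝ) ^ m * k := mul_nonneg h9 hk
    nlinarith
  linarith

/-- the constants grow slowly compared with the scales -/
theorem Lam_bound (m : ℕ) {ε : ℝ} (hε : 0 < ε) : ∃ C : ℝ, 0 ≤ C ∧
    ∀ k, Lam m (k + 1) * rr k ^ ε ≤ C := by
  let a : ℕ → ℝ := fun k => Lam m (k + 1) * rr k ^ ε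
  have ha0 : ∀ k, 0 ≤ a k := fun k =>
    mul_nonneg (Lam_pos m _).le (Real.rpow_nonneg (rr_pos k).le _)
  have hstep : ∀ k, a (k + 1) = a k * (2 ^ m * Lb m (nn (k + 1)) / (nn k : ℝ) ^ ε) := by
    intro k
    show Lam m (k + 1 + 1) * rr (k + 1) ^ ε = Lam m (k + 1) * rr k ^ ε * _
    rw [Lam_succ m (k + 1), rr_succ, Real.div_rpow (rr_pos k).le (nn_pos k).le]
    ring
  have hlim : Tendsto (fun k : ℕ => 2 ^ m * (cc m * ((k : ℝ) + 2)) / (nn k : ℝ) ^ ε) atTop
      (𝓝 0) := by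
    have hρ : (1 : ℝ) < 2 ^ ε := Real.one_lt_rpow (by norm_num) hε
    have h1 := tendsto_pow_const_div_const_pow_of_one_lt 1 hρ
    have h2 : Tendsto (fun k : ℕ => ((k + 2 : ℕ) : ℝ) ^ 1 / ((2 : ℝ) ^ ε) ^ (k + 2)) atTop (𝓝 0) :=
      h1.comp (tendsto_add_atTop_nat 2)
    have h3 := h2.const_mul (2 ^ m * cc m * 2 ^ ε)
    rw [mul_zero] at h3
    refine h3.congr fun k => ?_
    have hnn : (nn k : ℝ) ^ ε = ((2 : ℝ) ^ ε) ^ (k + 1) := by
      unfold nn
      push_cast
      rw [← Real.rpow_natCast, ← Real.rpow_natCast, ← Real.rpow_mul (by norm_num),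
        ← Real.rpow_mul (by norm_num), mul_comm]
    rw [hnn, pow_one, pow_succ ((2 : ℝ) ^ ε) (k + 1)]
    have hp : (0 : ℝ) < ((2 : ℝ) ^ ε) ^ (k + 1) := by positivity
    have hp2 : (0 : ℝ) < (2 : ℝ) ^ ε := by positivity
    push_cast
    field_simp
  have hev : ∀ᶠ k : ℕ in atTop, 2 ^ m * (cc m * ((k : ℝ) + 2)) / (nn k : ℝ) ^ ε ≤ 1 :=
    hlim.eventually_le_const (by norm_num)
  obtain ⟨k0, hk0⟩ := eventually_atTop.mp hev
  have hmono : ∀ l, a (k0 + l) ≤ a k0 := by
    intro l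
    induction l with
    | zero => exact le_rfl
    | succ l ih =>
      have h1 := hstep (k0 + l)
      have h2 : 2 ^ m * Lb m (nn (k0 + l + 1)) / (nn (k0 + l) : ℝ) ^ ε ≤ 1 := by
        refine le_trans ?_ (hk0 (k0 + l) (by omega))
        have h4 : (0 : ℝ) < (nn (k0 + l) : ℝ) ^ ε := Real.rpow_pos_of_pos (nn_pos _) _
        refine div_le_div_of_nonneg_right ?_ h4.le
        refine mul_le_mul_of_nonneg_left ?_ (by positivity)
        have h5 := Lb_le m (k0 + l + 1)
        refine h5.trans (le_of_eq ?_)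
        push_cast
        ring
      calc a (k0 + (l + 1)) = a (k0 + l) *
            (2 ^ m * Lb m (nn (k0 + l + 1)) / (nn (k0 + l) : ℝ) ^ ε) := h1
        _ ≤ a (k0 + l) * 1 := mul_le_mul_of_nonneg_left h2 (ha0 _)
        _ ≤ a k0 := by rw [mul_one]; exact ih
  refine ⟨∑ k ∈ Finset.range (k0 + 1), a k, Finset.sum_nonneg fun k _ => ha0 k, fun k => ?_⟩
  rcases lt_or_ge k (k0 + 1) with h | h
  · exact Finset.single_le_sum (fun k _ => ha0 k) (Finset.mem_range.mpr h)
  · obtain ⟨l, rfl⟩ := Nat.exists_eq_add_of_le (show k0 ≤ k by omega)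
    exact (hmono l).trans (Finset.single_le_sum (fun k _ => ha0 k)
      (Finset.mem_range.mpr (by omega)))

/-- the level of a width -/
theorem exists_level {w : ℝ} (hw : 0 < w) (hw1 : w ≤ 1) : ∃ k, w ≤ rr k ∧ rr (k + 1) ≤ w := by
  have hex : ∃ k, rr k < w := by
    have := tendsto_rr.eventually_lt_const hw
    exact this.exists
  classical
  have h1 := Nat.find_spec hex
  have h0 : Nat.find hex ≠ 0 := by
    intro h
    rw [h, rr_zero] at h1
    linarith
  obtain ⟨k, hk⟩ := Nat.exists_eq_succ_of_ne_zero h0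
  refine ⟨k, ?_, ?_⟩
  · have := Nat.find_min hex (m := k) (by omega)
    exact not_lt.mp this
  · rw [hk] at h1
    exact h1.le

/-- the tube bound -/
theorem tube_bound (m : ℕ) {s : ℝ} (hs0 : 0 ≤ s) (hs : s < m) : ∃ C : ℝ≥0,
    ∀ p v : EuclideanSpace ℝ (Fin (m + 1)), v ≠ 0 → ∀ w : ℝ, 0 < w →
      μH[(m : ℝ)] (KK m ∩ {x | Metric.infDist x (line p v) ≤ w / 2}) ≤
        C * ENNReal.ofReal (w ^ s) := by
  obtain ⟨C, hC0, hC⟩ := Lam_bound m (ε := m - s) (by linarith)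
  have hD : (0 : ℝ) ≤ √(m + 1) ^ m := by positivity
  refine ⟨(√(m + 1) ^ m * (C + 1)).toNNReal, fun p v hv w hw => ?_⟩
  have hcoe : (((√(m + 1) ^ m * (C + 1)).toNNReal : ℝ≥0) : ℝ≥0∞) =
      ENNReal.ofReal (√(m + 1) ^ m * (C + 1)) := rfl
  rw [hcoe, ← ENNReal.ofReal_mul (by positivity)]
  rcases le_or_gt w 1 with h1 | h1
  · obtain ⟨k, hk1, hk2⟩ := exists_level hw h1
    have hv' : (fun j => v j) ≠ (0 : Fin (m + 1) → ℝ) := by
      intro h0
      apply hv
      ext j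
      exact congrFun h0 j
    refine (tube_le hw (k + 1)).trans (ENNReal.ofReal_le_ofReal ?_)
    have h2 := card_PP_last (p := fun j => p j) hv' k hk1 hk2
    rw [mul_assoc]
    refine mul_le_mul_of_nonneg_left (h2.trans ?_) hD
    have h3 : w ^ m = w ^ ((m : ℝ) - s) * w ^ s := by
      rw [← Real.rpow_add hw, sub_add_cancel, Real.rpow_natCast]
    rw [h3, ← mul_assoc]
    refine mul_le_mul_of_nonneg_right ?_ (Real.rpow_nonneg hw.le _)
    have h4 : w ^ ((m : ℝ) - s) ≤ rr k ^ ((m : ℝ) - s) :=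
      Real.rpow_le_rpow hw.le hk1 (by linarith)
    calc Lam m (k + 1) * w ^ ((m : ℝ) - s) ≤ Lam m (k + 1) * rr k ^ ((m : ℝ) - s) :=
          mul_le_mul_of_nonneg_left h4 (Lam_pos m _).le
      _ ≤ C + 1 := by linarith [hC k]
  · refine (measure_mono Set.inter_subset_left).trans (KK_le.trans (ENNReal.ofReal_le_ofReal ?_))
    have h5 : (1 : ℝ) ≤ w ^ s := Real.one_le_rpow h1.le hs0
    calc √(m + 1) ^ m = √(m + 1) ^ m * 1 * 1 := by ring
      _ ≤ √(m + 1) ^ m * (C + 1) * w ^ s := by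
          refine mul_le_mul ?_ h5 zero_le_one (by positivity)
          exact mul_le_mul_of_nonneg_left (by linarith) hD

/-- projection to the last coordinates -/
def pj (x : EuclideanSpace ℝ (Fin (m + 1))) : Fin m → ℝ := fun j => x j.succ

theorem lipschitz_pj : LipschitzWith 1 (pj : EuclideanSpace ℝ (Fin (m + 1)) → Fin m → ℝ) := by
  refine LipschitzWith.of_dist_le_mul fun x y => ?_
  rw [NNReal.coe_one, one_mul]
  refine (dist_pi_le_iff dist_nonneg).mpr fun j => ?_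
  rw [Real.dist_eq]
  exact abs_coord_le x y j.succ

theorem isClosed_cube (q : Fin (m + 1) → ℝ) (r : ℝ) : IsClosed (cube q r) := by
  have h : cube q r = ⋂ j, ({x : EuclideanSpace ℝ (Fin (m + 1)) | q j ≤ x j} ∩
      {x : EuclideanSpace ℝ (Fin (m + 1)) | x j ≤ q j + r}) := by
    ext x
    simp only [cube, Set.mem_iInter]
    exact Iff.rfl
  rw [h]
  refine isClosed_iInter fun j => ?_
  have hc : Continuous fun x : EuclideanSpace ℝ (Fin (m + 1)) => x j := by fun_prop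
  exact (isClosed_le continuous_const hc).inter (isClosed_le hc continuous_const)

theorem isCompact_cube (q : Fin (m + 1) → ℝ) {r : ℝ} (hr : 0 ≤ r) : IsCompact (cube q r) := by
  refine Metric.isCompact_of_isClosed_isBounded (isClosed_cube q r) ?_
  rw [Metric.isBounded_iff_ediam_ne_top]
  exact ((diam_cube q hr).trans_lt ENNReal.ofReal_lt_top).ne

/-- the union of the cubes of one level -/
def UU (m k : ℕ) : Set (EuclideanSpace ℝ (Fin (m + 1))) := {x | ∃ q ∈ Cor m k, x ∈ cube q (rr k)}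

theorem UU_eq (k : ℕ) : UU m k = ⋃ q ∈ Cor m k, cube q (rr k) := by
  ext x
  simp only [UU, Set.mem_iUnion, exists_prop]
  exact Iff.rfl

theorem isCompact_UU (k : ℕ) : IsCompact (UU m k) := by
  rw [UU_eq]
  exact (Cor m k).isCompact_biUnion fun q _ => isCompact_cube q (rr_pos k).le

theorem UU_anti (k : ℕ) : UU m (k + 1) ⊆ UU m k := by
  rintro x ⟨q', hq', hx⟩
  obtain ⟨q, hq, i, rfl⟩ := mem_Cor_succ m |>.mp hq'
  refine ⟨q, hq, fun j => ?_⟩
  have h1 := ch_bounds k q i j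
  have h2 := hx j
  constructor <;> linarith [h1.1, h1.2, h2.1, h2.2]

theorem KK_eq : KK m = ⋂ k, UU m k := by
  ext x
  simp only [Set.mem_iInter]
  exact Iff.rfl

theorem isCompact_KK : IsCompact (KK m) := by
  rw [KK_eq]
  refine (isCompact_UU 0).of_isClosed_subset (isClosed_iInter fun k => (isCompact_UU k).isClosed)
    (Set.iInter_subset _ 0)

theorem exists_corner (y : Fin m → ℝ) (hy : ∀ j, 0 ≤ y j ∧ y j ≤ 1) (k : ℕ) :
    ∃ q ∈ Cor m k, ∀ j : Fin m, q j.succ ≤ y j ∧ y j ≤ q j.succ + rr k := by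
  induction k with
  | zero =>
    refine ⟨0, by rw [Cor_zero]; exact Finset.mem_singleton_self _, fun j => ?_⟩
    rw [rr_zero]
    simp only [Pi.zero_apply, zero_add]
    exact hy j
  | succ k ih =>
    obtain ⟨q, hq, hqy⟩ := ih
    have hr := rr_pos (k + 1)
    have hn := two_le_nn k
    let i : Fin m → Fin (nn k) := fun j =>
      ⟨min ⌊(y j - q j.succ) / rr (k + 1)⌋₊ (nn k - 1), by
        have := min_le_right ⌊(y j - q j.succ) / rr (k + 1)⌋₊ (nn k - 1)
        omega⟩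
    refine ⟨ch k q i, (mem_Cor_succ m).mpr ⟨q, hq, i, rfl⟩, fun j => ?_⟩
    have hz : zz i (hh m k i) j.succ =
        ((min ⌊(y j - q j.succ) / rr (k + 1)⌋₊ (nn k - 1) : ℕ) : ℝ) := by
      unfold zz
      rw [Fin.cons_succ]
    have hc : ch k q i j.succ = q j.succ + rr (k + 1) *
        ((min ⌊(y j - q j.succ) / rr (k + 1)⌋₊ (nn k - 1) : ℕ) : ℝ) := by
      show q j.succ + rr (k + 1) * zz i (hh m k i) j.succ = _
      rw [hz]
    rw [hc]
    have h0 : 0 ≤ (y j - q j.succ) / rr (k + 1) := div_nonneg (by linarith [(hqy j).1]) hr.le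
    constructor
    · have h1 : ((min ⌊(y j - q j.succ) / rr (k + 1)⌋₊ (nn k - 1) : ℕ) : ℝ) ≤
          (y j - q j.succ) / rr (k + 1) := by
        refine le_trans ?_ (Nat.floor_le h0)
        exact_mod_cast min_le_left _ _
      have h2 := mul_le_mul_of_nonneg_left h1 hr.le
      rw [mul_div_cancel₀ _ hr.ne'] at h2
      linarith
    · rcases le_total ⌊(y j - q j.succ) / rr (k + 1)⌋₊ (nn k - 1) with hle | hle
      · rw [min_eq_left hle]
        have h1 := Nat.lt_floor_add_one ((y j - q j.succ) / rr (k + 1))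
        have h2 := mul_lt_mul_of_pos_left h1 hr
        rw [mul_div_cancel₀ _ hr.ne'] at h2
        linarith
      · rw [min_eq_right hle]
        have h3 : ((nn k - 1 : ℕ) : ℝ) = (nn k : ℝ) - 1 := by
          rw [Nat.cast_sub (by omega), Nat.cast_one]
        rw [h3]
        have h4 := rr_succ_mul k
        have h5 := (hqy j).2
        nlinarith

theorem proj_surj (y : Fin m → ℝ) (hy : ∀ j, 0 ≤ y j ∧ y j ≤ 1) : ∃ x ∈ KK m, pj x = y := by
  have hc : IsClosed {x : EuclideanSpace ℝ (Fin (m + 1)) | pj x = y} :=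
    isClosed_eq lipschitz_pj.continuous continuous_const
  have h := IsCompact.nonempty_iInter_of_sequence_nonempty_isCompact_isClosed
    (fun k => UU m k ∩ {x : EuclideanSpace ℝ (Fin (m + 1)) | pj x = y})
    (fun k => Set.inter_subset_inter_left _ (UU_anti k))
    (fun k => by
      obtain ⟨q, hq, hqy⟩ := exists_corner y hy k
      refine ⟨WithLp.toLp 2 (Fin.cons (q 0) y : Fin (m + 1) → ℝ), ⟨q, hq, fun j => ?_⟩, ?_⟩
      · refine Fin.cases ?_ (fun j => ?_) j
        · show q 0 ≤ q 0 ∧ q 0 ≤ q 0 + rr k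
          exact ⟨le_rfl, by linarith [rr_pos k]⟩
        · exact hqy j
      · funext j
        rfl)
    ((isCompact_UU 0).inter_right hc)
    (fun k => (isCompact_UU k).isClosed.inter hc)
  obtain ⟨x, hx⟩ := h
  rw [Set.mem_iInter] at hx
  refine ⟨x, ?_, (hx 0).2⟩
  rw [KK_eq, Set.mem_iInter]
  exact fun k => (hx k).1

theorem one_le_KK : 1 ≤ μH[(m : ℝ)] (KK m) := by
  have h1 : Set.Icc (0 : Fin m → ℝ) 1 ⊆ pj '' (KK m) := by
    intro y hy
    obtain ⟨x, hx, hxy⟩ := proj_surj y fun j => ⟨hy.1 j, hy.2 j⟩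
    exact ⟨x, hx, hxy⟩
  have h2 := lipschitz_pj (m := m).hausdorffMeasure_image_le (d := (m : ℝ)) (Nat.cast_nonneg m)
    (KK m)
  rw [ENNReal.coe_one, ENNReal.one_rpow, one_mul] at h2
  refine le_trans ?_ ((measure_mono h1).trans h2)
  have h3 : (μH[(m : ℝ)] : Measure (Fin m → ℝ)) = volume := by
    have := hausdorffMeasure_pi_real (ι := Fin m)
    rwa [Fintype.card_fin] at this
  rw [h3, Real.volume_Icc_pi]
  simp

end Pool.Agent.H649T
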