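import Mathlib

/-!
A function whose graph meets every set of a finite family in few points.
-/

set_option autoImplicit false

open Finset

namespace Pool.Agent.H649T

section

variable {I Y F : Type} [Fintype I] [Fintype Y] [Fintype F] [DecidableEq I] [DecidableEq Y]

theorem two_pow_hits (D : Finset (I × Y)) (h : I → Y) :
    (2 : ℝ) ^ (univ.filter fun i => (i, h i) ∈ D).card =
      ∏ i, (if (i, h i) ∈ D then (2 : ℝ) else 1) := by
  rw [Finset.prod_ite, Finset.prod_const, Finset.prod_const_one, mul_one]

theorem sum_hits [Nonempty Y] (D : Finset (I × Y)) :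
    ∑ h : I → Y, (2 : ℝ) ^ (univ.filter fun i => (i, h i) ∈ D).card ≤
      (Fintype.card Y : ℝ) ^ Fintype.card I * Real.exp (D.card / Fintype.card Y) := by
  have hn : (0 : ℝ) < Fintype.card Y := by exact_mod_cast Fintype.card_pos
  simp only [two_pow_hits]
  have h1 : ∑ h : I → Y, ∏ i, (if (i, h i) ∈ D then (2 : ℝ) else 1) =
      ∏ i, ∑ y : Y, (if (i, y) ∈ D then (2 : ℝ) else 1) := by
    rw [Finset.prod_univ_sum, Fintype.piFinset_univ]
  rw [h1]
  have h2 : ∀ i : I, ∑ y : Y, (if (i, y) ∈ D then (2 : ℝ) else 1) =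
      Fintype.card Y + ((univ.filter fun y => (i, y) ∈ D).card : ℝ) := by
    intro i
    have : ∀ y : Y, (if (i, y) ∈ D then (2 : ℝ) else 1) = 1 + (if (i, y) ∈ D then (1 : ℝ) else 0) := by
      intro y
      split_ifs <;> norm_num
    simp only [this]
    rw [Finset.sum_add_distrib, Finset.sum_const, nsmul_eq_mul, mul_one, Finset.card_univ,
      Finset.sum_boole]
  have h3 : ∀ i : I, ∑ y : Y, (if (i, y) ∈ D then (2 : ℝ) else 1) ≤
      Fintype.card Y * Real.exp (((univ.filter fun y => (i, y) ∈ D).card : ℝ) /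
        Fintype.card Y) := by
    intro i
    rw [h2]
    have h4 := Real.add_one_le_exp (((univ.filter fun y => (i, y) ∈ D).card : ℝ) /
        Fintype.card Y)
    have h5 : (Fintype.card Y : ℝ) + ((univ.filter fun y => (i, y) ∈ D).card : ℝ) =
        Fintype.card Y * (((univ.filter fun y => (i, y) ∈ D).card : ℝ) / Fintype.card Y + 1) := by
      field_simp
      ring
    rw [h5]
    exact mul_le_mul_of_nonneg_left h4 hn.le
  refine (Finset.prod_le_prod (fun i _ => ?_) fun i _ => h3 i).trans ?_
  · exact Finset.sum_nonneg fun y _ => by split_ifs <;> norm_num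
  · rw [Finset.prod_mul_distrib, Finset.prod_const, Finset.card_univ, ← Real.exp_sum]
    apply le_of_eq
    congr 2
    rw [← Finset.sum_div]
    congr 1
    have : D.card = ∑ i, (univ.filter fun y => (i, y) ∈ D).card := by
      have h6 : D = (univ : Finset (I × Y)).filter (fun z => z ∈ D) := by simp
      conv_lhs => rw [h6]
      rw [← Finset.univ_product_univ, Finset.card_filter, Finset.sum_product]
      refine Finset.sum_congr rfl fun i _ => ?_
      rw [Finset.card_filter]
    rw [this]
    push_cast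
    rfl

theorem exists_graph [Nonempty Y] [Nonempty F] (D : F → Finset (I × Y)) :
    ∃ h : I → Y, ∀ f, ((univ.filter fun i => (i, h i) ∈ D f).card : ℝ) ≤
      2 * (Real.log (Fintype.card F) + (D f).card / Fintype.card Y) := by
  classical
  by_contra hcon
  push Not at hcon
  have hn : (0 : ℝ) < Fintype.card Y := by exact_mod_cast Fintype.card_pos
  have hF : (0 : ℝ) < Fintype.card F := by exact_mod_cast Fintype.card_pos
  let g : (I → Y) → F → ℝ := fun h f =>
    (2 : ℝ) ^ (univ.filter fun i => (i, h i) ∈ D f).card *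
      Real.exp (-((D f).card / Fintype.card Y))
  have hg0 : ∀ h f, 0 ≤ g h f := fun h f => by positivity
  have h1 : ∀ h : I → Y, (Fintype.card F : ℝ) < ∑ f, g h f := by
    intro h
    obtain ⟨f, hf⟩ := hcon h
    refine lt_of_lt_of_le ?_ (Finset.single_le_sum (fun f _ => hg0 h f) (Finset.mem_univ f))
    have h2 : Real.exp (Real.log (Fintype.card F) + (D f).card / Fintype.card Y) <
        (2 : ℝ) ^ (univ.filter fun i => (i, h i) ∈ D f).card := by
      rw [← Real.exp_log (show (0 : ℝ) < 2 ^ (univ.filter fun i => (i, h i) ∈ D f).card by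
        positivity), Real.exp_lt_exp, Real.log_pow]
      have hl : (1 : ℝ) / 2 ≤ Real.log 2 := by
        have := Real.log_two_gt_d9
        linarith
      have hc0 : (0 : ℝ) ≤ ((univ.filter fun i => (i, h i) ∈ D f).card : ℝ) := Nat.cast_nonneg _
      nlinarith
    rw [Real.exp_add, Real.exp_log hF] at h2
    show (Fintype.card F : ℝ) < (2 : ℝ) ^ (univ.filter fun i => (i, h i) ∈ D f).card *
      Real.exp (-((D f).card / Fintype.card Y))
    have h3 : (0 : ℝ) < Real.exp (-((D f).card / Fintype.card Y)) := Real.exp_pos _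
    have h4 := mul_lt_mul_of_pos_right h2 h3
    rw [mul_assoc, ← Real.exp_add, add_neg_cancel, Real.exp_zero, mul_one] at h4
    exact h4
  have h2 : ∑ h : I → Y, (Fintype.card F : ℝ) < ∑ h : I → Y, ∑ f, g h f :=
    Finset.sum_lt_sum_of_nonempty Finset.univ_nonempty fun h _ => h1 h
  rw [Finset.sum_comm] at h2
  have h3 : ∀ f, ∑ h : I → Y, g h f ≤ (Fintype.card Y : ℝ) ^ Fintype.card I := by
    intro f
    show ∑ h : I → Y, (2 : ℝ) ^ (univ.filter fun i => (i, h i) ∈ D f).card *
      Real.exp (-((D f).card / Fintype.card Y)) ≤ _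
    rw [← Finset.sum_mul]
    have h4 := mul_le_mul_of_nonneg_right (sum_hits (D f))
      (Real.exp_pos (-(((D f).card : ℝ) / Fintype.card Y))).le
    rw [mul_assoc, ← Real.exp_add, add_neg_cancel, Real.exp_zero, mul_one] at h4
    exact h4
  have h4 := h2.trans_le (Finset.sum_le_sum fun f (_ : f ∈ univ) => h3 f)
  rw [Finset.sum_const, Finset.sum_const, nsmul_eq_mul, nsmul_eq_mul, Finset.card_univ,
    Finset.card_univ, Fintype.card_fun] at h4
  push_cast at h4
  rw [mul_comm] at h4
  exact lt_irrefl _ h4

end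

end Pool.Agent.H649T
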