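import Pool.Agent.H649T.Cor

/-!
Hausdorff measure of the set and of its intersections with tubes.
-/

set_option autoImplicit false

open Finset MeasureTheory Filter Topology
open scoped ENNReal

namespace Pool.Agent.H649T

variable {m : ℕ}

/-- the set -/
def KK (m : ℕ) : Set (EuclideanSpace ℝ (Fin (m + 1))) :=
  {x | ∀ k, ∃ q ∈ Cor m k, ∀ j, q j ≤ x j ∧ x j ≤ q j + rr k}

/-- a cube -/
def cube (q : Fin (m + 1) → ℝ) (r : ℝ) : Set (EuclideanSpace ℝ (Fin (m + 1))) :=
  {x | ∀ j, q j ≤ x j ∧ x j ≤ q j + r}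

theorem diam_cube (q : Fin (m + 1) → ℝ) {r : ℝ} (hr : 0 ≤ r) :
    Metric.ediam (cube q r) ≤ ENNReal.ofReal (√(m + 1) * r) := by
  refine Metric.ediam_le fun x hx y hy => ?_
  rw [edist_dist]
  refine ENNReal.ofReal_le_ofReal ?_
  rw [EuclideanSpace.dist_eq]
  have h1 : ∑ i, dist (x i) (y i) ^ 2 ≤ (m + 1) * r ^ 2 := by
    calc ∑ i, dist (x i) (y i) ^ 2 ≤ ∑ _i : Fin (m + 1), r ^ 2 := by
          refine Finset.sum_le_sum fun i _ => ?_
          refine pow_le_pow_left₀ dist_nonneg ?_ 2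
          rw [Real.dist_eq, abs_le]
          have h1 := hx i
          have h2 := hy i
          constructor <;> linarith [h1.1, h1.2, h2.1, h2.2]
      _ = (m + 1) * r ^ 2 := by
          rw [Finset.sum_const, Finset.card_univ, Fintype.card_fin, nsmul_eq_mul]
          push_cast
          rfl
  calc √(∑ i, dist (x i) (y i) ^ 2) ≤ √((m + 1) * r ^ 2) := Real.sqrt_le_sqrt h1
    _ = √(m + 1) * r := by
        rw [Real.sqrt_mul (by positivity), Real.sqrt_sq hr]

theorem tendsto_rr : Tendsto rr atTop (𝓝 0) := by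
  refine squeeze_zero (fun k => (rr_pos k).le) rr_le_pow ?_
  exact tendsto_pow_atTop_nhds_zero_of_lt_one (by norm_num) (by norm_num)

theorem haus_le (A : Set (EuclideanSpace ℝ (Fin (m + 1)))) (Q : ℕ → Finset (Fin (m + 1) → ℝ))
    (B : ℝ) (k0 : ℕ) (hcov : ∀ k ≥ k0, ∀ x ∈ A, ∃ q ∈ Q k, x ∈ cube q (rr k))
    (hcard : ∀ k ≥ k0, ((Q k).card : ℝ) * rr k ^ m ≤ B) :
    μH[(m : ℝ)] A ≤ ENNReal.ofReal (√(m + 1) ^ m * B) := by
  have h0 : Tendsto (fun k => ENNReal.ofReal (√(m + 1) * rr k)) atTop (𝓝 0) := by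
    have h1 : Tendsto (fun k => √(m + 1) * rr k) atTop (𝓝 (√(m + 1) * 0)) :=
      tendsto_rr.const_mul _
    rw [mul_zero] at h1
    have h2 := (ENNReal.continuous_ofReal.tendsto 0).comp h1
    rw [ENNReal.ofReal_zero] at h2
    exact h2
  have h1 := Measure.hausdorffMeasure_le_liminf_sum (m : ℝ) A (l := atTop)
    (ι := fun k => {q // q ∈ Q k}) (fun k => ENNReal.ofReal (√(m + 1) * rr k)) h0
    (fun k q => cube q.1 (rr k))
    (Eventually.of_forall fun k q => diam_cube q.1 (rr_pos k).le)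
    (by
      filter_upwards [eventually_ge_atTop k0] with k hk x hx
      obtain ⟨q, hq, hx'⟩ := hcov k hk x hx
      exact Set.mem_iUnion.mpr ⟨⟨q, hq⟩, hx'⟩)
  refine h1.trans ?_
  have h2 : ∀ᶠ k in atTop, ∑ q : {q // q ∈ Q k}, Metric.ediam (cube q.1 (rr k)) ^ (m : ℝ) ≤
      ENNReal.ofReal (√(m + 1) ^ m * B) := by
    filter_upwards [eventually_ge_atTop k0] with k hk
    calc ∑ q : {q // q ∈ Q k}, Metric.ediam (cube q.1 (rr k)) ^ (m : ℝ)
        ≤ ∑ _q : {q // q ∈ Q k}, ENNReal.ofReal ((√(m + 1) * rr k) ^ m) := by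
          refine Finset.sum_le_sum fun q _ => ?_
          rw [ENNReal.rpow_natCast, ENNReal.ofReal_pow (by
            have := rr_pos k; positivity)]
          exact pow_le_pow_left₀ (by positivity) (diam_cube q.1 (rr_pos k).le) m
      _ = ENNReal.ofReal (((Q k).card : ℝ) * (√(m + 1) * rr k) ^ m) := by
          rw [Finset.sum_const, Finset.card_univ, Fintype.card_coe, nsmul_eq_mul,
            ENNReal.ofReal_mul (Nat.cast_nonneg _), ENNReal.ofReal_natCast]
      _ ≤ _ := by
          refine ENNReal.ofReal_le_ofReal ?_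
          rw [mul_pow]
          have h3 : (0 : ℝ) ≤ √(m + 1) ^ m := by positivity
          calc ((Q k).card : ℝ) * (√(m + 1) ^ m * rr k ^ m)
              = √(m + 1) ^ m * (((Q k).card : ℝ) * rr k ^ m) := by ring
            _ ≤ _ := mul_le_mul_of_nonneg_left (hcard k hk) h3
  refine (liminf_le_liminf h2).trans ?_
  rw [liminf_const]

theorem abs_coord_le (x y : EuclideanSpace ℝ (Fin (m + 1))) (j : Fin (m + 1)) :
    |x j - y j| ≤ dist x y := by
  rw [dist_eq_norm]
  exact PiLp.norm_apply_le (x - y) j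

/-- the line through `p` in direction `v` -/
def line {d : ℕ} (p v : EuclideanSpace ℝ (Fin d)) : Set (EuclideanSpace ℝ (Fin d)) :=
  {x | ∃ t : ℝ, x = p + t • v}

theorem near_of_infDist {p v x : EuclideanSpace ℝ (Fin (m + 1))} {w : ℝ} (hw : 0 < w)
    (h : Metric.infDist x (line p v) ≤ w / 2) :
    Near (fun j => p j) (fun j => v j) w (fun j => x j) := by
  have hne : (line p v).Nonempty := ⟨p, 0, by simp⟩
  have hlt : Metric.infDist x (line p v) < w := by linarith
  obtain ⟨y, ⟨t, rfl⟩, hy⟩ := (Metric.infDist_lt_iff hne).mp hlt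
  refine ⟨t, fun j => ?_⟩
  have h1 := abs_coord_le x (p + t • v) j
  have h2 : (p + t • v) j = p j + t * v j := by simp
  rw [h2] at h1
  linarith

theorem cover_PP {p v x : EuclideanSpace ℝ (Fin (m + 1))} {w : ℝ} (hx : x ∈ KK m)
    (h : Near (fun j => p j) (fun j => v j) w (fun j => x j)) (k : ℕ) :
    ∃ q ∈ PP (fun j => p j) (fun j => v j) w k, x ∈ cube q (rr k) := by
  obtain ⟨q, hq, hq2⟩ := hx k
  refine ⟨q, mem_PP.mpr ⟨hq, ?_⟩, hq2⟩
  obtain ⟨t, ht⟩ := h
  refine ⟨t, fun j => ?_⟩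
  have h1 := ht j
  have h2 := hq2 j
  rw [abs_le] at h1 ⊢
  constructor <;> linarith [h1.1, h1.2, h2.1, h2.2]

/-- the bound for a tube in terms of the level -/
theorem tube_le {p v : EuclideanSpace ℝ (Fin (m + 1))} {w : ℝ} (hw : 0 < w) (k : ℕ) :
    μH[(m : ℝ)] (KK m ∩ {x | Metric.infDist x (line p v) ≤ w / 2}) ≤
      ENNReal.ofReal (√(m + 1) ^ m *
        (((PP (fun j => p j) (fun j => v j) w k).card : ℝ) * rr k ^ m)) := by
  refine haus_le _ (fun k => PP (fun j => p j) (fun j => v j) w k) _ k ?_ ?_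
  · rintro l _ x ⟨hx1, hx2⟩
    exact cover_PP hx1 (near_of_infDist hw hx2) l
  · intro l hl
    obtain ⟨i, rfl⟩ := Nat.exists_eq_add_of_le hl
    exact card_PP_mono _ _ w k i

/-- the set has finite measure -/
theorem KK_le : μH[(m : ℝ)] (KK m) ≤ ENNReal.ofReal (√(m + 1) ^ m) := by
  have h := haus_le (KK m) (fun k => Cor m k) 1 0 (fun k _ x hx => hx k) (by
    intro k _
    induction k with
    | zero => rw [Cor_zero, Finset.card_singleton, rr_zero]; norm_num
    | succ k ih =>
      classical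
      have h1 : ((Cor m (k + 1)).card : ℝ) ≤ (Cor m k).card * (nn k : ℝ) ^ m := by
        rw [Cor_succ]
        calc (((Cor m k).biUnion fun q => univ.image (ch k q)).card : ℝ)
            ≤ ((∑ q ∈ Cor m k, (univ.image (ch k q)).card : ℕ) : ℝ) := by
              exact_mod_cast Finset.card_biUnion_le
          _ ≤ ∑ q ∈ Cor m k, (nn k : ℝ) ^ m := by
              push_cast
              refine Finset.sum_le_sum fun q _ => ?_
              have h3 : (univ.image (ch k q)).card ≤ (univ : Finset (Fin m → Fin (nn k))).card :=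
                Finset.card_image_le
              rw [Finset.card_univ, Fintype.card_fun, Fintype.card_fin, Fintype.card_fin] at h3
              exact_mod_cast h3
          _ = _ := by rw [Finset.sum_const, nsmul_eq_mul]
      have h2 : (0 : ℝ) ≤ rr (k + 1) ^ m := pow_nonneg (rr_pos _).le m
      calc ((Cor m (k + 1)).card : ℝ) * rr (k + 1) ^ m
          ≤ ((Cor m k).card * (nn k : ℝ) ^ m) * rr (k + 1) ^ m :=
            mul_le_mul_of_nonneg_right h1 h2
        _ = (Cor m k).card * (rr (k + 1) * nn k) ^ m := by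
            rw [mul_pow]; ring
        _ ≤ 1 := by rw [rr_succ_mul]; exact ih (Nat.zero_le _))
  rw [mul_one] at h
  exact h

end Pool.Agent.H649T
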