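import Pool.Agent.H649T.Graph

/-!
Graphs over the grid that meet every tube in few points.
-/

set_option autoImplicit false

open Finset

namespace Pool.Agent.H649T

/-- the point is within `ρ` (in the maximum norm) of the line through `p` in direction `v` -/
def Near {d : ℕ} (p v : Fin d → ℝ) (ρ : ℝ) (x : Fin d → ℝ) : Prop :=
  ∃ t : ℝ, ∀ j, |x j - (p j + t * v j)| ≤ ρ

/-- grid point as a real vector -/
def zz {m n : ℕ} (i : Fin m → Fin n) (y : Fin n) : Fin (m + 1) → ℝ :=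
  fun j => (((Fin.cons y i : Fin (m + 1) → Fin n) j : ℕ) : ℝ)

/-- parameters of discretized tubes -/
abbrev Fam (m n : ℕ) : Type :=
  Fin (m + 1) × (Fin (m + 1) → Fin (12 * n + 1)) × (Fin (m + 1) → Fin (12 * n + 1)) ×
    Fin (4 * n + 1)

/-- the condition that defines a discretized tube -/
def InD {m : ℕ} (n : ℕ) (f : Fam m n) (x : Fin (m + 1) → ℝ) : Prop :=
  ∀ j, |((n : ℝ) - 1) * (x j - (((f.2.1 j : ℕ) : ℝ) - 6 * n)) -
    (((f.2.2.1 j : ℕ) : ℝ) - ((f.2.1 j : ℕ) : ℝ)) * x f.1| ≤ ((n : ℝ) - 1) * (f.2.2.2 : ℕ)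

open Classical in
/-- the grid points in a discretized tube -/
noncomputable def DD {m n : ℕ} (f : Fam m n) : Finset ((Fin m → Fin n) × Fin n) :=
  univ.filter fun z => InD n f (zz z.1 z.2)

theorem card_close {n : ℕ} (S : Finset (Fin n)) (R : ℕ)
    (h : ∀ x ∈ S, ∀ y ∈ S, (x : ℕ) ≤ (y : ℕ) + 2 * R) : S.card ≤ 2 * R + 1 := by
  rcases S.eq_empty_or_nonempty with he | hne
  · rw [he]; simp
  · let a := S.min' hne
    have ha : a ∈ S := S.min'_mem hne
    have h1 : S.map Fin.valEmbedding ⊆ Finset.Icc (a : ℕ) (a + 2 * R) := by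
      intro k hk
      rw [Finset.mem_map] at hk
      obtain ⟨x, hx, rfl⟩ := hk
      rw [Finset.mem_Icc]
      exact ⟨S.min'_le x hx, h x hx a ha⟩
    have h2 := Finset.card_le_card h1
    rw [Finset.card_map, Nat.card_Icc] at h2
    omega

theorem card_DD {m n : ℕ} (hn : 2 ≤ n) (f : Fam m n) :
    (DD f).card ≤ n * (2 * (f.2.2.2 : ℕ) + 1) ^ m := by
  classical
  obtain ⟨js, α, β, R⟩ := f
  have hn1 : (0 : ℝ) < (n : ℝ) - 1 := by
    have : (2 : ℝ) ≤ n := by exact_mod_cast hn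
    linarith
  -- the admissible values of coordinate `j` when coordinate `js` is `t`
  let Z : Fin n → Fin (m + 1) → Finset (Fin n) := fun t j =>
    univ.filter fun y : Fin n => |((n : ℝ) - 1) * (((y : ℕ) : ℝ) - (((α j : ℕ) : ℝ) - 6 * n)) -
      (((β j : ℕ) : ℝ) - ((α j : ℕ) : ℝ)) * ((t : ℕ) : ℝ)| ≤ ((n : ℝ) - 1) * (R : ℕ)
  have hZ : ∀ t j, (Z t j).card ≤ 2 * (R : ℕ) + 1 := by
    intro t j
    refine card_close _ _ fun x hx y hy => ?_
    have hx' := (Finset.mem_filter.mp hx).2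
    have hy' := (Finset.mem_filter.mp hy).2
    rw [abs_le] at hx' hy'
    have h1 : ((n : ℝ) - 1) * (((x : ℕ) : ℝ) - ((y : ℕ) : ℝ)) ≤ ((n : ℝ) - 1) * (2 * (R : ℕ)) := by
      linarith [hx'.2, hy'.1]
    have h2 := le_of_mul_le_mul_left h1 hn1
    have h3 : ((x : ℕ) : ℝ) ≤ ((y : ℕ) : ℝ) + 2 * ((R : ℕ) : ℝ) := by linarith
    exact_mod_cast h3
  let g : (Fin m → Fin n) × Fin n → (Fin (m + 1) → Fin n) := fun z => Fin.cons z.2 z.1
  have hg : Function.Injective g := by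
    rintro ⟨i, y⟩ ⟨i', y'⟩ h
    have h0 : (Fin.cons y i : Fin (m + 1) → Fin n) = Fin.cons y' i' := h
    rw [Fin.cons_inj] at h0
    rw [h0.1, h0.2]
  have hsub : (DD (js, α, β, R)).image g ⊆
      univ.biUnion fun t : Fin n => Fintype.piFinset fun j => if j = js then {t} else Z t j := by
    intro u hu
    rw [Finset.mem_image] at hu
    obtain ⟨z, hz, rfl⟩ := hu
    have hz' : InD n (js, α, β, R) (zz z.1 z.2) := by
      unfold DD at hz
      exact (Finset.mem_filter.mp hz).2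
    rw [Finset.mem_biUnion]
    refine ⟨g z js, Finset.mem_univ _, ?_⟩
    rw [Fintype.mem_piFinset]
    intro j
    by_cases hj : j = js
    · rw [if_pos hj, hj]; exact Finset.mem_singleton_self _
    · rw [if_neg hj]
      exact Finset.mem_filter.mpr ⟨Finset.mem_univ _, hz' j⟩
  calc (DD (js, α, β, R)).card = ((DD (js, α, β, R)).image g).card :=
        (Finset.card_image_of_injective _ hg).symm
    _ ≤ _ := Finset.card_le_card hsub
    _ ≤ ∑ t : Fin n, (Fintype.piFinset fun j => if j = js then {t} else Z t j).card :=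
        Finset.card_biUnion_le
    _ ≤ ∑ _t : Fin n, (2 * (R : ℕ) + 1) ^ m := by
        refine Finset.sum_le_sum fun t _ => ?_
        rw [Fintype.card_piFinset, Fin.prod_univ_succAbove _ js, if_pos rfl,
          Finset.card_singleton, one_mul]
        calc ∏ i : Fin m, (if js.succAbove i = js then {t} else Z t (js.succAbove i)).card
            ≤ ∏ _i : Fin m, (2 * (R : ℕ) + 1) := by
              refine Finset.prod_le_prod' fun i _ => ?_
              rw [if_neg (Fin.succAbove_ne js i)]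
              exact hZ t _
          _ = _ := by rw [Finset.prod_const, Finset.card_univ, Fintype.card_fin]
    _ = n * (2 * (R : ℕ) + 1) ^ m := by
        rw [Finset.sum_const, Finset.card_univ, Fintype.card_fin, smul_eq_mul]

theorem zz_nonneg {m n : ℕ} (i : Fin m → Fin n) (y : Fin n) (j : Fin (m + 1)) : 0 ≤ zz i y j :=
  Nat.cast_nonneg _

theorem zz_le {m n : ℕ} (i : Fin m → Fin n) (y : Fin n) (j : Fin (m + 1)) :
    zz i y j ≤ (n : ℝ) - 1 := by
  have h : ((Fin.cons y i : Fin (m + 1) → Fin n) j : ℕ) + 1 ≤ n := Fin.is_lt _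
  have h' : (((Fin.cons y i : Fin (m + 1) → Fin n) j : ℕ) : ℝ) + 1 ≤ n := by exact_mod_cast h
  unfold zz
  linarith

/-- encoding of an integer in a bounded range -/
theorem encode {n : ℕ} (k : ℤ) (h1 : -(6 * n : ℤ) ≤ k) (h2 : k ≤ 6 * n) :
    ∃ a : Fin (12 * n + 1), (((a : ℕ) : ℝ) - 6 * n) = k := by
  refine ⟨⟨(k + 6 * n).toNat, by omega⟩, ?_⟩
  have h3 : (((k + 6 * n).toNat : ℕ) : ℤ) = k + 6 * n := Int.toNat_of_nonneg (by omega)
  have h4 : (((k + 6 * n).toNat : ℕ) : ℝ) = k + 6 * n := by exact_mod_cast h3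
  show (((k + 6 * n).toNat : ℕ) : ℝ) - 6 * n = k
  rw [h4]; ring

/-- a tube around a line is contained in a discretized tube -/
theorem discretize {m n : ℕ} (hn : 2 ≤ n) (p v : Fin (m + 1) → ℝ) (hv : v ≠ 0) (ρ : ℝ)
    (h1 : 1 ≤ ρ) (h2 : ρ ≤ n) (z0 : (Fin m → Fin n) × Fin n) (hz0 : Near p v ρ (zz z0.1 z0.2)) :
    ∃ f : Fam m n, ((f.2.2.2 : ℕ) : ℝ) ≤ 4 * ρ ∧
      ∀ z : (Fin m → Fin n) × Fin n, Near p v ρ (zz z.1 z.2) → z ∈ DD f := by
  classical
  have hn1 : (0 : ℝ) < (n : ℝ) - 1 := by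
    have : (2 : ℝ) ≤ n := by exact_mod_cast hn
    linarith
  obtain ⟨js, hjs⟩ := Finite.exists_max (fun j => |v j|)
  have hvj : v js ≠ 0 := by
    intro h0
    apply hv
    funext j
    have := hjs j
    rw [h0, abs_zero] at this
    exact abs_eq_zero.mp (le_antisymm this (abs_nonneg _))
  let lam : Fin (m + 1) → ℝ := fun j => v j / v js
  have hlam : ∀ j, |lam j| ≤ 1 := by
    intro j
    show |v j / v js| ≤ 1
    rw [abs_div, div_le_one (abs_pos.mpr hvj)]
    exact hjs j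
  let a : Fin (m + 1) → ℝ := fun j => p j - lam j * p js
  have hnear : ∀ x : Fin (m + 1) → ℝ, Near p v ρ x → ∀ j, |x j - a j - lam j * x js| ≤ 2 * ρ := by
    rintro x ⟨t, ht⟩ j
    have e : x j - a j - lam j * x js =
        (x j - (p j + t * v j)) - lam j * (x js - (p js + t * v js)) := by
      have : lam j * v js = v j := div_mul_cancel₀ _ hvj
      show x j - (p j - lam j * p js) - lam j * x js = _
      linear_combination (-t) * this
    rw [e]
    refine (abs_sub _ _).trans ?_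
    rw [abs_mul]
    have h3 : |lam j| * |x js - (p js + t * v js)| ≤ 1 * ρ :=
      mul_le_mul (hlam j) (ht js) (abs_nonneg _) zero_le_one
    linarith [ht j]
  have hx0 := hnear _ hz0
  have ha : ∀ j, |a j| ≤ 4 * n - 2 := by
    intro j
    have e1 := hx0 j
    rw [abs_le] at e1 ⊢
    have b1 := zz_nonneg z0.1 z0.2 j
    have b2 := zz_le z0.1 z0.2 j
    have b3 := zz_nonneg z0.1 z0.2 js
    have b4 := zz_le z0.1 z0.2 js
    have b5 : |lam j * zz z0.1 z0.2 js| ≤ 1 * ((n : ℝ) - 1) := by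
      rw [abs_mul, abs_of_nonneg b3]
      exact mul_le_mul (hlam j) b4 b3 zero_le_one
    rw [abs_le] at b5
    constructor <;> linarith [e1.1, e1.2, b5.1, b5.2]
  have hb : ∀ j, |a j + lam j * ((n : ℝ) - 1)| ≤ 5 * n - 3 := by
    intro j
    have e1 := ha j
    have b5 : |lam j * ((n : ℝ) - 1)| ≤ 1 * ((n : ℝ) - 1) := by
      rw [abs_mul, abs_of_pos hn1]
      exact mul_le_mul (hlam j) le_rfl hn1.le zero_le_one
    rw [abs_le] at e1 b5 ⊢
    constructor <;> linarith [e1.1, e1.2, b5.1, b5.2]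
  have hA : ∀ j, ∃ c : Fin (12 * n + 1), (((c : ℕ) : ℝ) - 6 * n) = (⌊a j⌋ : ℤ) := by
    intro j
    have e1 := ha j
    rw [abs_le] at e1
    refine encode _ ?_ ?_
    · rw [Int.le_floor]; push_cast; linarith [e1.1]
    · have : (⌊a j⌋ : ℝ) ≤ a j := Int.floor_le _
      have h6 : (⌊a j⌋ : ℝ) ≤ ((6 * n : ℤ) : ℝ) := by push_cast; linarith [e1.2]
      exact_mod_cast h6
  have hB : ∀ j, ∃ c : Fin (12 * n + 1), (((c : ℕ) : ℝ) - 6 * n) =
      (⌊a j + lam j * ((n : ℝ) - 1)⌋ : ℤ) := by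
    intro j
    have e1 := hb j
    rw [abs_le] at e1
    refine encode _ ?_ ?_
    · rw [Int.le_floor]; push_cast; linarith [e1.1]
    · have : (⌊a j + lam j * ((n : ℝ) - 1)⌋ : ℝ) ≤ a j + lam j * ((n : ℝ) - 1) := Int.floor_le _
      have h6 : (⌊a j + lam j * ((n : ℝ) - 1)⌋ : ℝ) ≤ ((6 * n : ℤ) : ℝ) := by
        push_cast; linarith [e1.2]
      exact_mod_cast h6
  choose α hα using hA
  choose β hβ using hB
  have hR : ⌈3 * ρ⌉₊ < 4 * n + 1 := by
    have h3 : (⌈3 * ρ⌉₊ : ℝ) < 3 * ρ + 1 := Nat.ceil_lt_add_one (by linarith)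
    have h4 : (⌈3 * ρ⌉₊ : ℝ) < ((4 * n + 1 : ℕ) : ℝ) := by push_cast; linarith
    exact_mod_cast h4
  refine ⟨(js, α, β, ⟨⌈3 * ρ⌉₊, hR⟩), ?_, ?_⟩
  · have h3 : (⌈3 * ρ⌉₊ : ℝ) < 3 * ρ + 1 := Nat.ceil_lt_add_one (by linarith)
    show (⌈3 * ρ⌉₊ : ℝ) ≤ 4 * ρ
    linarith
  · intro z hz
    unfold DD
    refine Finset.mem_filter.mpr ⟨Finset.mem_univ _, fun j => ?_⟩
    show |((n : ℝ) - 1) * (zz z.1 z.2 j - (((α j : ℕ) : ℝ) - 6 * n)) -
      (((β j : ℕ) : ℝ) - ((α j : ℕ) : ℝ)) * zz z.1 z.2 js| ≤ ((n : ℝ) - 1) * (⌈3 * ρ⌉₊ : ℕ)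
    have e1 := hnear _ hz j
    set x := zz z.1 z.2 j with hx
    set t := zz z.1 z.2 js with ht
    have t0 : 0 ≤ t := zz_nonneg _ _ _
    have t1 : t ≤ (n : ℝ) - 1 := zz_le _ _ _
    have e2 : (((β j : ℕ) : ℝ) - ((α j : ℕ) : ℝ)) =
        (⌊a j + lam j * ((n : ℝ) - 1)⌋ : ℝ) - (⌊a j⌋ : ℝ) := by
      rw [← hβ, ← hα]; ring
    rw [hα, e2]
    have f1 := Int.floor_le (a j)
    have f2 := Int.lt_floor_add_one (a j)
    have f3 := Int.floor_le (a j + lam j * ((n : ℝ) - 1))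
    have f4 := Int.lt_floor_add_one (a j + lam j * ((n : ℝ) - 1))
    set A : ℝ := (⌊a j⌋ : ℝ) with hAd
    set B : ℝ := (⌊a j + lam j * ((n : ℝ) - 1)⌋ : ℝ) with hBd
    have e3 : ((n : ℝ) - 1) * (x - A) - (B - A) * t =
        ((n : ℝ) - 1) * (x - a j - lam j * t) + (((n : ℝ) - 1 - t) * (a j - A) +
          t * (a j + lam j * ((n : ℝ) - 1) - B)) := by ring
    have g1 : 0 ≤ ((n : ℝ) - 1 - t) * (a j - A) := mul_nonneg (by linarith) (by linarith)
    have g2 : ((n : ℝ) - 1 - t) * (a j - A) ≤ ((n : ℝ) - 1 - t) * 1 :=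
      mul_le_mul_of_nonneg_left (by linarith) (by linarith)
    have g3 : 0 ≤ t * (a j + lam j * ((n : ℝ) - 1) - B) := mul_nonneg t0 (by linarith)
    have g4 : t * (a j + lam j * ((n : ℝ) - 1) - B) ≤ t * 1 :=
      mul_le_mul_of_nonneg_left (by linarith) t0
    have g5 : |((n : ℝ) - 1) * (x - a j - lam j * t)| ≤ ((n : ℝ) - 1) * (2 * ρ) := by
      rw [abs_mul, abs_of_pos hn1]
      exact mul_le_mul_of_nonneg_left e1 hn1.le
    have g6 : ((n : ℝ) - 1) * (3 * ρ) ≤ ((n : ℝ) - 1) * (⌈3 * ρ⌉₊ : ℕ) :=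
      mul_le_mul_of_nonneg_left (Nat.le_ceil _) hn1.le
    have g7 : ((n : ℝ) - 1) * 1 ≤ ((n : ℝ) - 1) * ρ := mul_le_mul_of_nonneg_left h1 hn1.le
    rw [e3]
    rw [abs_le] at g5 ⊢
    constructor <;> nlinarith [g5.1, g5.2]

/-- the constant in the bound for one step -/
noncomputable def Lb (m n : ℕ) : ℝ := 2 * (Real.log (Fintype.card (Fam m n)) + 9 ^ m)

theorem log_nonneg_card (m n : ℕ) : 0 ≤ Real.log (Fintype.card (Fam m n)) :=
  Real.log_natCast_nonneg _

theorem Lb_ge (m n : ℕ) : 1 ≤ Lb m n := by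
  unfold Lb
  have h1 := log_nonneg_card m n
  have h2 : (1 : ℝ) ≤ 9 ^ m := one_le_pow₀ (by norm_num)
  linarith

open Classical in
theorem exists_digits (m n : ℕ) (hn : 2 ≤ n) : ∃ h : (Fin m → Fin n) → Fin n,
    ∀ (p v : Fin (m + 1) → ℝ), v ≠ 0 → ∀ ρ : ℝ, 1 ≤ ρ →
      ((univ.filter fun i => Near p v ρ (zz i (h i))).card : ℝ) ≤ Lb m n * ρ ^ m := by
  have : Nonempty (Fin n) := ⟨⟨0, by omega⟩⟩
  obtain ⟨h, hh⟩ := exists_graph (I := Fin m → Fin n) (Y := Fin n) (F := Fam m n) (fun f => DD f)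
  refine ⟨h, fun p v hv ρ hρ => ?_⟩
  have hLb := Lb_ge m n
  have hρ0 : (0 : ℝ) ≤ ρ ^ m := by positivity
  have hρ1 : (1 : ℝ) ≤ ρ ^ m := one_le_pow₀ hρ
  rcases lt_or_ge (n : ℝ) ρ with hlt | hle
  · calc ((univ.filter fun i => Near p v ρ (zz i (h i))).card : ℝ)
        ≤ ((univ : Finset (Fin m → Fin n)).card : ℝ) := by
          exact_mod_cast Finset.card_le_card (Finset.filter_subset _ _)
      _ = (n : ℝ) ^ m := by
          rw [Finset.card_univ, Fintype.card_fun, Fintype.card_fin, Fintype.card_fin]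
          push_cast
          rfl
      _ ≤ ρ ^ m := pow_le_pow_left₀ (Nat.cast_nonneg n) hlt.le m
      _ ≤ Lb m n * ρ ^ m := le_mul_of_one_le_left hρ0 hLb
  · rcases (univ.filter fun i => Near p v ρ (zz i (h i))).eq_empty_or_nonempty with he | hne
    · rw [he, Finset.card_empty, Nat.cast_zero]
      positivity
    · obtain ⟨i0, hi0⟩ := hne
      have hi0' := (Finset.mem_filter.mp hi0).2
      obtain ⟨f, hf1, hf2⟩ := discretize hn p v hv ρ hρ hle (i0, h i0) hi0'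
      have h1 : (univ.filter fun i => Near p v ρ (zz i (h i))) ⊆
          (univ.filter fun i => (i, h i) ∈ DD f) := by
        intro i hi
        exact Finset.mem_filter.mpr ⟨Finset.mem_univ _, hf2 (i, h i) (Finset.mem_filter.mp hi).2⟩
      have h2 : ((univ.filter fun i => Near p v ρ (zz i (h i))).card : ℝ) ≤
          ((univ.filter fun i => (i, h i) ∈ DD f).card : ℝ) := by
        exact_mod_cast Finset.card_le_card h1
      have h3 := hh f
      have hn0 : (0 : ℝ) < n := by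
        have : (2 : ℝ) ≤ n := by exact_mod_cast hn
        linarith
      have h4 : ((DD f).card : ℝ) / Fintype.card (Fin n) ≤ (9 * ρ) ^ m := by
        rw [Fintype.card_fin, div_le_iff₀ hn0]
        have h5 : ((DD f).card : ℝ) ≤ n * (2 * ((f.2.2.2 : ℕ) : ℝ) + 1) ^ m := by
          exact_mod_cast card_DD hn f
        refine h5.trans ?_
        rw [mul_comm]
        refine mul_le_mul_of_nonneg_right ?_ hn0.le
        refine pow_le_pow_left₀ (by positivity) ?_ m
        linarith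
      calc ((univ.filter fun i => Near p v ρ (zz i (h i))).card : ℝ)
          ≤ 2 * (Real.log (Fintype.card (Fam m n)) + (DD f).card / Fintype.card (Fin n)) :=
            h2.trans h3
        _ ≤ 2 * (Real.log (Fintype.card (Fam m n)) * ρ ^ m + 9 ^ m * ρ ^ m) := by
            have h6 := mul_le_mul_of_nonneg_left hρ1 (log_nonneg_card m n)
            rw [mul_pow] at h4
            linarith
        _ = Lb m n * ρ ^ m := by unfold Lb; ring

end Pool.Agent.H649T
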